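import Pool.Agent.Work.MP_f4f44f_al.Proof
import Mathlib.Topology.Connected.PathConnected

/-! A path connected witness: all end points of the fibres are collapsed to one point `v`. -/

namespace Pool.Agent.Work.MP_f4f44f_al.Cn

open Set Topology Filter

/-- The height is added as the first coordinate of the base point. -/
def X (z : (ℕ → ℝ) × ℝ) : ℕ → ℝ
  | 0 => z.2
  | j + 1 => z.1 j

theorem continuous_X : Continuous X := continuous_pi fun j => by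
  cases j with
  | zero => exact continuous_snd
  | succ j => exact (continuous_apply j).comp continuous_fst

theorem X_le {z : (ℕ → ℝ) × ℝ} (hz : z ∈ Z) (j : ℕ) : |X z j| ≤ 1 := by
  cases j with
  | succ j => exact Z_fst hz j
  | zero =>
    rcases hz with h | ⟨n, rfl⟩
    · change |z.2| ≤ 1
      rw [h.2]
      simp
    · change |1 / ((n : ℝ) + 1)| ≤ 1
      rw [abs_of_pos (by positivity), div_le_one (by positivity)]
      have : (0 : ℝ) ≤ n := by positivity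
      linarith

/-- The parametrisation of the space. -/
def Ψ (z : (ℕ → ℝ) × ℝ) (t : ℝ) : P × ℝ := ((1 - t ^ 2) • Φ (X z, z.2) t, 1 - t ^ 2)

theorem Ψ_a (z : (ℕ → ℝ) × ℝ) (t : ℝ) (ij : ℕ × ℕ) :
    (Ψ z t).1.1 ij = (1 - t ^ 2) * (X z ij.1 * X z ij.2) := rfl

theorem Ψ_b (z : (ℕ → ℝ) × ℝ) (t : ℝ) (j : ℕ) :
    (Ψ z t).1.2.1 j = (1 - t ^ 2) * (t * X z j) := rfl

theorem Ψ_c (z : (ℕ → ℝ) × ℝ) (t : ℝ) : (Ψ z t).1.2.2 = (1 - t ^ 2) * z.2 := rfl

theorem Ψ_d (z : (ℕ → ℝ) × ℝ) (t : ℝ) : (Ψ z t).2 = 1 - t ^ 2 := rfl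

theorem continuous_Ψ : Continuous fun w : ((ℕ → ℝ) × ℝ) × ℝ => Ψ w.1 w.2 := by
  have hX := continuous_X
  have h : Continuous fun w : ((ℕ → ℝ) × ℝ) × ℝ => Φ (X w.1, w.1.2) w.2 :=
    continuous_Φ.comp (f := fun w : ((ℕ → ℝ) × ℝ) × ℝ => ((X w.1, w.1.2), w.2)) (by fun_prop)
  have h2 : Continuous fun w : ((ℕ → ℝ) × ℝ) × ℝ => 1 - w.2 ^ 2 := by fun_prop
  exact (h2.smul h).prodMk h2

theorem Ψ_zero (z : (ℕ → ℝ) × ℝ) {t : ℝ} (h : 1 - t ^ 2 = 0) : Ψ z t = 0 := by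
  rw [Ψ, h, zero_smul]
  rfl

theorem Ψ_inj {z : (ℕ → ℝ) × ℝ} {t t' : ℝ} {j : ℕ} (h : Ψ z t = Ψ z t') (h0 : 1 - t ^ 2 ≠ 0)
    (hj : X z j ≠ 0) : t = t' := by
  have h1 : 1 - t ^ 2 = 1 - t' ^ 2 := congrArg Prod.snd h
  have h2 : (1 - t ^ 2) * (t * X z j) = (1 - t' ^ 2) * (t' * X z j) :=
    congrArg (fun a : P × ℝ => a.1.2.1 j) h
  rw [← h1] at h2
  exact mul_right_cancel₀ hj (mul_left_cancel₀ h0 h2)

/-- The space. -/
def B : Set (P × ℝ) := {a | ∃ z ∈ Z, ∃ t : ℝ, |t| ≤ 1 ∧ a = Ψ z t}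

theorem isCompact_K : IsCompact (Z ×ˢ Icc (-1 : ℝ) 1) := isCompact_Z.prod isCompact_Icc

theorem isCompact_B : IsCompact B := by
  have : B = (fun w : ((ℕ → ℝ) × ℝ) × ℝ => Ψ w.1 w.2) '' (Z ×ˢ Icc (-1) 1) := by
    ext a
    constructor
    · rintro ⟨z, hz, t, ht, rfl⟩
      exact ⟨(z, t), ⟨hz, abs_le.1 ht⟩, rfl⟩
    · rintro ⟨⟨z, t⟩, ⟨hz, ht⟩, rfl⟩
      exact ⟨z, hz, t, abs_le.2 ht, rfl⟩
  rw [this]
  exact isCompact_K.image continuous_Ψ

theorem memQ {x : ℕ → ℝ} (hx : x ∈ Q) : (x, (0 : ℝ)) ∈ Z := Or.inl ⟨hx, rfl⟩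

theorem memd (n : ℕ) : (d n, 1 / ((n : ℝ) + 1)) ∈ Z := Or.inr ⟨n, rfl⟩

theorem zero_mem_Z : ((0, 0) : (ℕ → ℝ) × ℝ) ∈ Z := Or.inl ⟨fun i => by simp, rfl⟩

/-- The common point of all fibres. -/
def v : B := ⟨0, (0, 0), zero_mem_Z, 1, by simp, (Ψ_zero _ (by norm_num)).symm⟩

theorem ne_v {a : B} : a ≠ v ↔ a.1.2 ≠ 0 := by
  refine not_congr ⟨fun h => by rw [h]; rfl, fun h => ?_⟩
  obtain ⟨_, z, hz, t, ht, rfl⟩ := a
  exact Subtype.ext (Ψ_zero z h)

/-- Fibrewise Moebius maps. -/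
noncomputable def M (i : ℕ) (s : ℝ) (a : P × ℝ) : P × ℝ :=
  ((a.2 * ((1 - s ^ 2 * (a.2⁻¹ • a.1).1 (i, i)) / (1 + s * (a.2⁻¹ • a.1).2.1 i) ^ 2)) •
    mob i s (a.2⁻¹ • a.1),
    a.2 * ((1 - s ^ 2 * (a.2⁻¹ • a.1).1 (i, i)) / (1 + s * (a.2⁻¹ • a.1).2.1 i) ^ 2))

theorem M_Ψ (i : ℕ) {s : ℝ} (hs : |s| ≤ 1 / 2) {z : (ℕ → ℝ) × ℝ} (hz : z ∈ Z) {t : ℝ}
    (ht : |t| ≤ 1) : M i s (Ψ z t) = Ψ z ((t + s * X z i) / (1 + s * (t * X z i))) := by
  have hd := (denom_pos hs ht (X_le hz i)).ne'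
  have key : 1 - ((t + s * X z i) / (1 + s * (t * X z i))) ^ 2 =
      (1 - t ^ 2) * ((1 - s ^ 2 * (X z i * X z i)) / (1 + s * (t * X z i)) ^ 2) := by
    rw [div_pow, one_sub_div (pow_ne_zero 2 hd), mul_div_assoc']
    congr 1
    ring
  by_cases h : 1 - t ^ 2 = 0
  · rw [Ψ_zero z h, Ψ_zero z (by rw [key, h, zero_mul])]
    simp [M]
  · have e : (Ψ z t).2⁻¹ • (Ψ z t).1 = Φ (X z, z.2) t := by
      rw [Ψ, smul_smul, inv_mul_cancel₀ h, one_smul]
    rw [M, e, mob_Φ]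
    conv_rhs => rw [Ψ, key]
    rfl

theorem M_mem (i : ℕ) {s : ℝ} (hs : |s| ≤ 1 / 2) {a : P × ℝ} (ha : a ∈ B) : M i s a ∈ B := by
  obtain ⟨z, hz, t, ht, rfl⟩ := ha
  exact ⟨z, hz, _, mob_bound hs ht (X_le hz i), M_Ψ i hs hz ht⟩

theorem M_M (i : ℕ) {s : ℝ} (hs : |s| ≤ 1 / 2) {a : P × ℝ} (ha : a ∈ B) :
    M i (-s) (M i s a) = a := by
  obtain ⟨z, hz, t, ht, rfl⟩ := ha
  have hs' : |-s| ≤ 1 / 2 := by simpa using hs
  rw [M_Ψ i hs hz ht, M_Ψ i hs' hz (mob_bound hs ht (X_le hz i))]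
  congr 1
  have h1 := denom_pos hs ht (X_le hz i)
  have h2 := denom_pos hs' (mob_bound hs ht (X_le hz i)) (X_le hz i)
  rw [div_eq_iff h2.ne']
  have h3 : (1 + s * (t * X z i)) * (1 + s * (t * X z i))⁻¹ = 1 := mul_inv_cancel₀ h1.ne'
  rw [div_eq_mul_inv]
  linear_combination (t + s * X z i) * h3

theorem continuous_M (i : ℕ) : Continuous fun w : Icc (-(1 / 2) : ℝ) (1 / 2) × B =>
    (⟨M i w.1.1 w.2.1, M_mem i (abs_le.2 w.1.2) w.2.2⟩ : B) := by
  have : CompactSpace (Z ×ˢ Icc (-1 : ℝ) 1 : Set _) := isCompact_iff_compactSpace.1 isCompact_K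
  have hΨ := continuous_Ψ
  have hX := continuous_X
  let π : Icc (-(1 / 2) : ℝ) (1 / 2) × (Z ×ˢ Icc (-1 : ℝ) 1 : Set _) →
      Icc (-(1 / 2) : ℝ) (1 / 2) × B :=
    fun w => (w.1, ⟨Ψ w.2.1.1 w.2.1.2, _, w.2.2.1, _, abs_le.2 w.2.2.2, rfl⟩)
  have hc : Continuous π := continuous_fst.prodMk (Continuous.subtype_mk
    (hΨ.comp (continuous_subtype_val.comp continuous_snd)) _)
  have hsurj : Function.Surjective π := by
    rintro ⟨s, _, z, hz, t, ht, rfl⟩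
    exact ⟨(s, ⟨(z, t), hz, abs_le.1 ht⟩), rfl⟩
  rw [(hc.isClosedMap.isQuotientMap hc hsurj).continuous_iff]
  refine Continuous.subtype_mk ?_ _
  have e : (fun w => M i (π w).1.1 (π w).2.1) = fun w => Ψ w.2.1.1
      ((w.2.1.2 + w.1.1 * X w.2.1.1 i) / (1 + w.1.1 * (w.2.1.2 * X w.2.1.1 i))) :=
    funext fun w => M_Ψ i (abs_le.2 w.1.2) w.2.2.1 (abs_le.2 w.2.2.2)
  change Continuous fun w => M i (π w).1.1 (π w).2.1
  rw [e]
  refine hΨ.comp (f := fun w : Icc (-(1 / 2) : ℝ) (1 / 2) × (Z ×ˢ Icc (-1 : ℝ) 1 : Set _) =>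
    (w.2.1.1, (w.2.1.2 + w.1.1 * X w.2.1.1 i) / (1 + w.1.1 * (w.2.1.2 * X w.2.1.1 i))))
    (Continuous.prodMk (by fun_prop) (Continuous.div (by fun_prop) (by fun_prop) fun w => ?_))
  exact (denom_pos (abs_le.2 w.1.2) (abs_le.2 w.2.2.2) (X_le w.2.2.1 i)).ne'

theorem continuous_M' (i : ℕ) {Y : Type} [TopologicalSpace Y] (s : Y → ℝ) (hs : Continuous s)
    (hs' : ∀ y, |s y| ≤ 1 / 2) (a : Y → B) (ha : Continuous a) :
    Continuous fun y => (⟨M i (s y) (a y).1, M_mem i (hs' y) (a y).2⟩ : B) := by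
  have h : Continuous fun y =>
      ((⟨s y, abs_le.1 (hs' y)⟩, a y) : Icc (-(1 / 2) : ℝ) (1 / 2) × B) :=
    (hs.subtype_mk _).prodMk ha
  have h2 := (continuous_M i).comp' h
  exact h2

/-- The Moebius homeomorphisms of `B`. -/
noncomputable def g (i : ℕ) (s : ℝ) (hs : |s| ≤ 1 / 2) : B ≃ₜ B where
  toFun a := ⟨M i s a.1, M_mem i hs a.2⟩
  invFun a := ⟨M i (-s) a.1, M_mem i (by simpa using hs) a.2⟩
  left_inv a := Subtype.ext (M_M i hs a.2)
  right_inv a := Subtype.ext (by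
    have := M_M i (s := -s) (by simpa using hs) a.2
    simpa using this)
  continuous_toFun := continuous_M' i (fun _ => s) continuous_const (fun _ => hs) id continuous_id
  continuous_invFun := continuous_M' i (fun _ => -s) continuous_const
    (fun _ => by simpa using hs) id continuous_id

/-- The height of a point other than `v`. -/
noncomputable def H (a : B) : ℝ := a.1.1.2.2 / a.1.2

theorem H_Ψ {a : B} {z : (ℕ → ℝ) × ℝ} {t : ℝ} (e : a.1 = Ψ z t) (h0 : a ≠ v) : H a = z.2 := by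
  have h := ne_v.1 h0
  rw [H]
  rw [e] at h ⊢
  exact mul_div_cancel_left₀ z.2 h

theorem const_H {T : Set B} (hT : IsPreconnected T) (hv : v ∉ T) {a b : B} (ha : a ∈ T)
    (hb : b ∈ T) : H a = H b := by
  have h0 : ∀ x ∈ T, x.1.2 ≠ 0 := fun x hx => ne_v.1 fun e => hv (e ▸ hx)
  have hc : ContinuousOn H T := ContinuousOn.div (by fun_prop) (by fun_prop) h0
  have hsub : H '' T ⊆ insert 0 (range fun n : ℕ => 1 / ((n : ℝ) + 1)) := by
    rintro _ ⟨x, hx, rfl⟩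
    obtain ⟨z, hz, t, -, e⟩ := x.2
    rw [H_Ψ e fun k => hv (k ▸ hx)]
    rcases hz with h | ⟨n, rfl⟩
    · exact Or.inl h.2
    · exact Or.inr ⟨n, rfl⟩
  exact ((countable_range _).insert 0).isTotallyDisconnected _ hsub (hT.image H hc)
    ⟨a, ha, rfl⟩ ⟨b, hb, rfl⟩

theorem ex_path (y : B) (c : ℝ → (ℕ → ℝ) × ℝ) (hc : Continuous c) (t e : ℝ) (ht : |t| ≤ 1)
    (he : |e| = 1) (hm : ∀ u ∈ Icc (0 : ℝ) 1, c u ∈ Z) (h0 : y.1 = Ψ (c 0) t) :
    ∃ γ : Path y v, ∀ u, (γ u).1 = Ψ (c u) (t + u * (e - t)) := by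
  have hb : ∀ u : unitInterval, |t + u * (e - t)| ≤ 1 := fun u => by
    obtain ⟨a1, a2⟩ := abs_le.1 ht
    obtain ⟨b1, b2⟩ := abs_le.1 he.le
    have := u.2.1
    have := u.2.2
    rw [abs_le]
    constructor <;> nlinarith
  refine ⟨⟨⟨fun u => ⟨Ψ (c u) (t + u * (e - t)), _, hm u u.2, _, hb u, rfl⟩, ?_⟩, ?_, ?_⟩,
    fun _ => rfl⟩
  · exact Continuous.subtype_mk (continuous_Ψ.comp
      (f := fun u : unitInterval => (c u, t + u * (e - t))) (by fun_prop)) _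
  · exact Subtype.ext (by simp [h0])
  · refine Subtype.ext (Ψ_zero _ ?_)
    have : e ^ 2 = 1 := by rw [← sq_abs, he, one_pow]
    simp [this]

theorem pathConnected_B : PathConnectedSpace B := by
  have h : ∀ y : B, Joined y v := by
    rintro ⟨_, z, hz, t, ht, rfl⟩
    obtain ⟨γ, -⟩ := ex_path ⟨_, z, hz, t, ht, rfl⟩ (fun _ => z) continuous_const t 1 ht abs_one
      (fun _ _ => hz) rfl
    exact ⟨γ⟩
  exact ⟨⟨v⟩, fun x y => (h x).trans (h y).symm⟩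

theorem joined_avoid {x y : B} (hx : x ≠ v) (hy : y ≠ x) : JoinedIn {x}ᶜ y v := by
  obtain ⟨_, z, hz, t, ht, rfl⟩ := y
  have hw := ne_v.1 hx
  have hy' : Ψ z t ≠ x.1 := fun e => hy (Subtype.ext e)
  obtain ⟨γ1, h1⟩ := ex_path ⟨_, z, hz, t, ht, rfl⟩ (fun _ => z) continuous_const t 1 ht abs_one
    (fun _ _ => hz) rfl
  obtain ⟨γ2, h2⟩ := ex_path ⟨_, z, hz, t, ht, rfl⟩ (fun _ => z) continuous_const t (-1) ht
    (by simp) (fun _ _ => hz) rfl
  by_cases k1 : ∀ u, γ1 u ≠ x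
  · exact ⟨γ1, k1⟩
  by_cases k2 : ∀ u, γ2 u ≠ x
  · exact ⟨γ2, k2⟩
  push Not at k1 k2
  obtain ⟨u1, k1⟩ := k1
  obtain ⟨u2, k2⟩ := k2
  have e1 : x.1 = Ψ z (t + u1 * (1 - t)) := by rw [← k1, h1]
  have e2 : x.1 = Ψ z (t + u2 * (-1 - t)) := by rw [← k2, h2]
  have hX : ∀ j, X z j = 0 := fun j => by
    by_contra hj
    have e := Ψ_inj (e1.symm.trans e2) (by rwa [e1] at hw) hj
    obtain ⟨a1, a2⟩ := abs_le.1 ht
    have b1 : 0 ≤ (u1 : ℝ) * (1 - t) := mul_nonneg u1.2.1 (by linarith)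
    have b2 : 0 ≤ (u2 : ℝ) * (1 + t) := mul_nonneg u2.2.1 (by linarith)
    have b3 : t + u1 * (1 - t) = t := by linarith
    exact hy' (by rw [e1, b3])
  have hz0 : z = (fun _ => 0, 0) := Prod.ext (funext fun j => hX (j + 1)) (hX 0)
  obtain ⟨γ3, h3⟩ := ex_path ⟨_, z, hz, t, ht, rfl⟩ (fun u => (fun _ => u, 0)) (by fun_prop) t 1 ht
    abs_one (fun u hu => Or.inl ⟨fun _ => abs_le.2 ⟨by linarith [hu.1], hu.2⟩, rfl⟩)
    (congrArg (fun w => Ψ w t) hz0)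
  refine ⟨γ3, fun u k3 => ?_⟩
  have e3 : x.1 = Ψ (fun _ => u, 0) (t + u * (1 - t)) := by
    rw [← h3]
    exact congrArg Subtype.val (mem_singleton_iff.1 k3).symm
  have c1 : x.1.1.1 (1, 1) = 0 := by rw [e1, Ψ_a, hX, mul_zero, mul_zero]
  have c2 : x.1.1.1 (1, 1) = x.1.2 * ((u : ℝ) * u) := by
    rw [e3]
    rfl
  have c3 : (u : ℝ) = 0 := mul_self_eq_zero.1 ((mul_eq_zero.1 (c2.symm.trans c1)).resolve_left hw)
  apply hy'
  rw [e3, c3, hz0]
  simp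

/-- The point of the zero section over `z`. -/
def pt (z : (ℕ → ℝ) × ℝ) (hz : z ∈ Z) : B := ⟨Ψ z 0, z, hz, 0, by simp, rfl⟩

theorem pt_ne (z : (ℕ → ℝ) × ℝ) (hz : z ∈ Z) : pt z hz ≠ v := ne_v.2 (by simp [pt, Ψ_d])

theorem H_pt (z : (ℕ → ℝ) × ℝ) (hz : z ∈ Z) : H (pt z hz) = z.2 :=
  H_Ψ (t := 0) rfl (pt_ne z hz)

theorem fix_v (φ : B ≃ₜ B) : φ v = v := by
  by_contra h
  have h1 : IsPathConnected ({φ v}ᶜ : Set B) :=
    ⟨v, fun e => h (mem_singleton_iff.1 e).symm, fun y hy => (joined_avoid h hy).symm⟩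
  have h2 := h1.isConnected.isPreconnected.image φ.symm φ.symm.continuous.continuousOn
  have h3 : ∀ a, a ≠ v → a ∈ φ.symm '' ({φ v}ᶜ : Set B) := fun a ha =>
    ⟨φ a, fun e => ha (φ.injective e), φ.symm_apply_apply a⟩
  have h4 := const_H h2 (by
    rintro ⟨y, hy, e⟩
    exact hy (by rw [← e, φ.apply_symm_apply]; rfl))
    (h3 _ (pt_ne _ zero_mem_Z)) (h3 _ (pt_ne _ (memd 0)))
  rw [H_pt, H_pt] at h4
  simp at h4

theorem fst_of_height (a : B) (ha : a ≠ v) (n : ℕ) (h : H a = 1 / ((n : ℝ) + 1)) (ij : ℕ × ℕ) :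
    a.1.1.1 ij = a.1.2 * (X (d n, 1 / ((n : ℝ) + 1)) ij.1 * X (d n, 1 / ((n : ℝ) + 1)) ij.2) := by
  obtain ⟨z, hz, t, ht, e⟩ := a.2
  rw [H_Ψ e ha] at h
  rcases hz with h' | ⟨m, rfl⟩
  · have : (0 : ℝ) < 1 / ((n : ℝ) + 1) := by positivity
    linarith [h'.2]
  · have h2 : (m : ℝ) + 1 = n + 1 := by
      have := congrArg (fun x : ℝ => x⁻¹) h
      simpa using this
    have h3 : m = n := by exact_mod_cast add_right_cancel h2
    subst h3
    rw [e]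
    rfl

theorem fst_preserved (φ : B → B) (hφ : Continuous φ)
    (h : ∀ a, a ≠ v → φ a ≠ v ∧ H (φ a) = H a) (x : ℕ → ℝ) (hx : x ∈ Q) (ij : ℕ × ℕ) :
    (φ (pt (x, 0) (memQ hx))).1.1.1 ij =
      (φ (pt (x, 0) (memQ hx))).1.2 * (X (x, 0) ij.1 * X (x, 0) ij.2) := by
  obtain ⟨u, hu, hlim⟩ := mem_closure_iff_seq_limit.1 (d_dense hx)
  choose n hn using hu
  have hmem : ∀ k, u k ∈ Z := fun k => Or.inr ⟨n k, (hn k).symm⟩
  have hl : Tendsto (fun k => pt (u k) (hmem k)) atTop (𝓝 (pt (x, 0) (memQ hx))) := by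
    rw [tendsto_subtype_rng]
    have := (continuous_Ψ.tendsto ((x, 0), 0)).comp
      (hlim.prodMk_nhds (tendsto_const_nhds (x := (0 : ℝ))))
    exact this
  have hX := continuous_X
  have c1 : Continuous fun a : B => (φ a).1.1.1 ij := by fun_prop
  have c2 : Continuous fun a : B => (φ a).1.2 := by fun_prop
  have c3 : Continuous fun z : (ℕ → ℝ) × ℝ => X z ij.1 * X z ij.2 := by fun_prop
  refine tendsto_nhds_unique ((c1.tendsto _).comp hl)
    ((((c2.tendsto _).comp hl).mul ((c3.tendsto _).comp hlim)).congr fun k => ?_)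
  obtain ⟨k1, k2⟩ := h _ (pt_ne _ (hmem k))
  simp only [Function.comp]
  have e : (d (n k), 1 / ((n k : ℝ) + 1)) = u k := hn k
  rw [fst_of_height _ k1 (n k) (by rw [k2, H_pt, ← e]), e]

theorem X_neg (k : ℕ) (y : Fin (k + 1) → ℝ) (j : ℕ) : X (ex k (-y), 0) j = -X (ex k y, 0) j := by
  cases j with
  | zero => exact neg_zero.symm
  | succ j => exact ex_neg k y j

/-- The point of the zero section over `ex k y`. -/
noncomputable def base (k : ℕ) (y : Fin (k + 1) → ℝ) : B :=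
  pt (ex k y, 0) (memQ (ex_mem k y))

theorem base_neg (k : ℕ) (y : Fin (k + 1) → ℝ) : base k (-y) = base k y := by
  apply Subtype.ext
  simp [base, pt, Ψ, Φ, X_neg]

theorem continuous_base (k : ℕ) : Continuous (base k) := by
  refine Continuous.subtype_mk ?_ _
  have := continuous_ex k
  exact continuous_Ψ.comp (f := fun y => ((ex k y, (0 : ℝ)), (0 : ℝ))) (by fun_prop)

theorem common_fixed_point (k : ℕ) (φ : Fin k → B → B) (hφ : ∀ j, Continuous (φ j))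
    (h : ∀ j a, a ≠ v → φ j a ≠ v ∧ H (φ j a) = H a) :
    ∃ (z : (ℕ → ℝ) × ℝ) (hz : z ∈ Z) (i : ℕ), X z i ≠ 0 ∧ ∀ j, φ j (pt z hz) = pt z hz := by
  have hb := continuous_base k
  have he := continuous_ex k
  obtain ⟨y, hy, hf⟩ := Pool.Agent.Lib.BorsukUlam.borsuk_ulam_l1 k
    (fun y j => ∑ i ∈ Finset.range (k + 1), ex k y i * (φ j (base k y)).1.1.2.1 (i + 1))
    (by
      refine Continuous.continuousOn (continuous_pi fun j => ?_)
      have := hφ j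
      fun_prop)
    (by
      intro y _
      funext j
      simp [base_neg, ex_neg])
  obtain ⟨i0, hi0⟩ : ∃ i0, y i0 ≠ 0 := by
    by_contra hcon
    push Not at hcon
    simp [hcon] at hy
  have hx0 : ex k y i0 ≠ 0 := by
    have hpos : 0 < 1 + y i0 ^ 2 := by positivity
    simp [ex, i0.2, hi0, hpos.ne']
  refine ⟨(ex k y, 0), memQ (ex_mem k y), i0 + 1, hx0, fun j => ?_⟩
  have h1 := fst_preserved (φ j) (hφ j) (h j) (ex k y) (ex_mem k y)
  obtain ⟨h0, h2⟩ := h j (base k y) (pt_ne _ _)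
  have h3 := congrFun hf j
  simp only [Pi.zero_apply] at h3
  rw [base, H_pt] at h2
  rw [base] at h0 h3
  generalize φ j (pt (ex k y, 0) (memQ (ex_mem k y))) = q at h0 h1 h2 h3
  obtain ⟨z, hz, t, ht, e⟩ := q.2
  rw [H_Ψ e h0] at h2
  have hw := ne_v.1 h0
  rw [e] at hw h1 h3
  change 1 - t ^ 2 ≠ 0 at hw
  have h4 : ∀ a b, X z a * X z b = X (ex k y, 0) a * X (ex k y, 0) b := fun a b =>
    mul_left_cancel₀ hw (h1 (a, b))
  have h5 : (1 - t ^ 2) * t * (ex k y i0 * ∑ i ∈ Finset.range (k + 1), ex k y i ^ 2) = 0 := by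
    have : (∑ i ∈ Finset.range (k + 1), ex k y i * ((1 - t ^ 2) * (t * X z (i + 1)))) *
        X z (i0 + 1) = 0 := by
      simp only [Ψ_b] at h3
      rw [h3, zero_mul]
    rw [← this, Finset.mul_sum, Finset.mul_sum, Finset.sum_mul]
    refine Finset.sum_congr rfl fun i _ => ?_
    have : X z (i + 1) * X z (i0 + 1) = ex k y i * ex k y i0 := h4 (i + 1) (i0 + 1)
    linear_combination (-((1 - t ^ 2) * t * ex k y i)) * this
  have h6 : 0 < ∑ i ∈ Finset.range (k + 1), ex k y i ^ 2 :=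
    Finset.sum_pos' (fun i _ => sq_nonneg _)
      ⟨i0, Finset.mem_range.2 i0.2, by positivity⟩
  have h7 : t = 0 :=
    (mul_eq_zero.1 ((mul_eq_zero.1 h5).resolve_right (mul_ne_zero hx0 h6.ne'))).resolve_left hw
  subst h7
  apply Subtype.ext
  rw [e]
  simp [pt, Ψ, Φ, h4, h2]

instance : CompactSpace B := isCompact_iff_compactSpace.1 isCompact_B

/-- A compatible metric on `B`. -/
@[reducible] noncomputable def metricB : MetricSpace B := TopologicalSpace.metrizableSpaceMetric B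

theorem main : ∀ S : Finset (B ≃ₜ B),
    (S : Set (B ≃ₜ B)) ⊆ @arcComponent B metricB _ →
      ¬ @arcComponent B metricB _ ⊆
        @closure _ (@unifTop B metricB _) (Subgroup.closure (S : Set (B ≃ₜ B)) : Set (B ≃ₜ B)) := by
  intro S hS hsub
  let _ : TopologicalSpace (B ≃ₜ B) := @unifTop B metricB _
  have hev : ∀ a : B, Continuous fun φ : B ≃ₜ B => φ a := by
    intro a
    have h1 : Continuous fun f : B ≃ₜ B => (⟨f, f.continuous⟩ : C(B, B)) := continuous_induced_dom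
    exact (continuous_eval_const (F := C(B, B)) a).comp h1
  have hne : ∀ (φ : B ≃ₜ B) (a : B), a ≠ v → φ a ≠ v := fun φ a ha e =>
    ha (φ.injective (e.trans (fix_v φ).symm))
  have hheight : ∀ φ ∈ @arcComponent B metricB _, ∀ a : B, a ≠ v → φ a ≠ v ∧ H (φ a) = H a := by
    rintro φ (rfl | ⟨γ, hγ, h0, h1⟩) a ha
    · exact ⟨ha, rfl⟩
    · refine ⟨hne φ a ha, ?_⟩
      have := const_H (isPreconnected_range ((hev a).comp hγ.continuous))
        (by rintro ⟨s, e⟩; exact hne _ a ha e) ⟨1, rfl⟩ ⟨0, rfl⟩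
      simpa [h0, h1] using this
  obtain ⟨z, hz, i, hpi, hfix⟩ := common_fixed_point S.card
    (fun j => (S.equivFin.symm j).1) (fun j => (S.equivFin.symm j).1.continuous)
    (fun j => hheight _ (hS (S.equivFin.symm j).2))
  have hcl : closure (Subgroup.closure (S : Set (B ≃ₜ B)) : Set (B ≃ₜ B)) ⊆
      {φ | φ (pt z hz) = pt z hz} := by
    refine closure_minimal ?_ (isClosed_eq (hev _) continuous_const)
    intro φ hφ
    induction hφ using Subgroup.closure_induction with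
    | mem φ hφ =>
      have := hfix (S.equivFin ⟨φ, hφ⟩)
      simpa using this
    | one => rfl
    | mul a b _ _ ha hb =>
      simp only [mem_ofPred_eq] at ha hb ⊢
      rw [Homeomorph.mul_apply, hb, ha]
    | inv a _ ha =>
      simp only [mem_ofPred_eq] at ha ⊢
      rw [Homeomorph.inv_apply]
      exact a.symm_apply_eq.2 ha.symm
  have hs : ∀ s : unitInterval, |(s : ℝ) / 2| ≤ 1 / 2 := by
    intro s
    rw [abs_of_nonneg (by have := s.2.1; positivity)]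
    have := s.2.2
    linarith
  let γ : unitInterval → (B ≃ₜ B) := fun s => g i (s / 2) (hs s)
  have hγp : ∀ s s', γ s (pt z hz) = γ s' (pt z hz) → s = s' := by
    intro s s' e
    have e1 : ∀ r : unitInterval, (γ r (pt z hz)).1 = Ψ z (r / 2 * X z i) := fun r => by
      refine (M_Ψ i (hs r) hz (t := 0) (by simp)).trans ?_
      simp
    have e2 := congrArg Subtype.val e
    rw [e1, e1] at e2
    have b : |(s : ℝ) / 2 * X z i| ≤ 1 / 2 := by
      rw [abs_mul]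
      nlinarith [hs s, X_le hz i, abs_nonneg ((s : ℝ) / 2), abs_nonneg (X z i)]
    have h2 := mul_right_cancel₀ hpi (Ψ_inj e2 (by nlinarith [abs_le.1 b]) hpi)
    exact Subtype.ext (by linarith)
  have hγc : Continuous γ := by
    refine continuous_induced_rng.2 (ContinuousMap.continuous_of_continuous_uncurry _ ?_)
    exact continuous_M' i (fun w : unitInterval × B => (w.1 : ℝ) / 2) (by fun_prop)
      (fun w => hs w.1) (fun w => w.2) continuous_snd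
  have hγi : Function.Injective γ := fun s s' h => hγp s s' (by rw [h])
  have : T2Space (B ≃ₜ B) := by
    refine T2Space.of_injective_continuous
      (f := fun f : B ≃ₜ B => (⟨f, f.continuous⟩ : C(B, B))) ?_ continuous_induced_dom
    intro f f' h
    ext1 a
    exact congrArg (fun F : C(B, B) => F a) h
  have h0 : γ 0 = 1 := by
    ext1 a
    obtain ⟨_, w, hw, t, ht, rfl⟩ := a
    apply Subtype.ext
    refine (M_Ψ i (hs 0) hw ht).trans ?_
    simp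
  have hmem : γ 1 ∈ @arcComponent B metricB _ :=
    Or.inr ⟨γ, (hγc.isClosedEmbedding hγi).isEmbedding, h0, rfl⟩
  have h1 := hcl (hsub hmem)
  simp only [mem_ofPred_eq] at h1
  exact one_ne_zero (hγp 1 0 (by rw [h1, h0]; rfl))

end Pool.Agent.Work.MP_f4f44f_al.Cn
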